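import Pool.Agent.helper16.SCV.Spec

/-!
# MP_ad8ced_nt, row scv:LOC
-/

set_option autoImplicit false

namespace Pool.Agent.SCV

open Finset ArithmeticFunction MeasureTheory
open Pool.Agent.SCT

private theorem LOC_int {f : ℝ → ℝ} (hf : Sm f) (hf0 : ∀ u, 0 ≤ f u) {a b c : ℝ} (hab : a ≤ b) (hc : 0 < c)
    (h1 : ∀ u, a ≤ u → u ≤ b → f u = 1) :
    (Real.exp (c * b) - Real.exp (c * a)) / c ≤ ∫ v : ℝ, f v * Real.exp (c * v) := by
  have hi : Integrable (fun v : ℝ => f v * Real.exp (c * v)) := by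
    apply Continuous.integrable_of_hasCompactSupport
    · exact hf.cont.mul (by fun_prop)
    · exact hf.2.mul_right
  have h2 : ∫ v in Set.Icc a b, f v * Real.exp (c * v) ≤ ∫ v : ℝ, f v * Real.exp (c * v) :=
    setIntegral_le_integral hi (Filter.Eventually.of_forall fun v => mul_nonneg (hf0 v) (Real.exp_pos _).le)
  refine le_trans (le_of_eq ?_) h2
  have h3 : ∫ v in Set.Icc a b, f v * Real.exp (c * v) = ∫ v in Set.Icc a b, Real.exp (c * v) := by
    apply setIntegral_congr_fun measurableSet_Icc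
    intro v hv
    simp only [h1 v hv.1 hv.2, one_mul]
  rw [h3, integral_Icc_eq_integral_Ioc, ← intervalIntegral.integral_of_le hab,
    intervalIntegral.integral_comp_mul_left (fun v => Real.exp v) hc.ne', integral_exp, smul_eq_mul]
  field_simp

private theorem LOC_w {w : ℝ → ℝ} (hw : Sm w) (hw0 : ∀ u, 0 ≤ w u) {κ₁ η : ℝ} (hk : 0 < κ₁) (hk1 : κ₁ ≤ 1 / 4)
    (hη : 0 < η) (h1 : ∀ u, -1 + κ₁ ≤ u → u ≤ 0 - κ₁ → w u = 1) :
    (1 - Real.exp (-η)) - 2 * κ₁ * η ≤ η * ∫ v : ℝ, w v * Real.exp (η * v) := by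
  have h2 := LOC_int hw hw0 (a := -1 + κ₁) (b := 0 - κ₁) (c := η) (by linarith) hη h1
  have h3 : η * ((Real.exp (η * (0 - κ₁)) - Real.exp (η * (-1 + κ₁))) / η) =
      Real.exp (η * (0 - κ₁)) - Real.exp (η * (-1 + κ₁)) := by field_simp
  have h4 : Real.exp (η * (0 - κ₁)) - Real.exp (η * (-1 + κ₁)) ≤ η * ∫ v : ℝ, w v * Real.exp (η * v) := by
    rw [← h3]
    exact mul_le_mul_of_nonneg_left h2 hη.le
  refine le_trans ?_ h4
  have h5 : 1 - κ₁ * η ≤ Real.exp (η * (0 - κ₁)) := by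
    have := Real.add_one_le_exp (η * (0 - κ₁))
    nlinarith
  have h6 : Real.exp (η * (-1 + κ₁)) ≤ Real.exp (-η) + κ₁ * η := by
    have h7 : Real.exp (-η) ≥ Real.exp (η * (-1 + κ₁)) * (1 - κ₁ * η) := by
      have h8 : Real.exp (-η) = Real.exp (η * (-1 + κ₁)) * Real.exp (-(κ₁ * η)) := by
        rw [← Real.exp_add]; congr 1; ring
      rw [h8]
      apply mul_le_mul_of_nonneg_left _ (Real.exp_pos _).le
      have := Real.add_one_le_exp (-(κ₁ * η))
      linarith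
    have h9 : Real.exp (η * (-1 + κ₁)) ≤ 1 := by
      rw [Real.exp_le_one_iff]
      nlinarith
    nlinarith [mul_pos hk hη]
  linarith

/-- the inner sum over `n` -/
private theorem LOC_inner {g w : ℝ → ℝ} (hg : ∀ u, 0 ≤ g u ∧ g u ≤ 1)
    (hw : ∀ u, 0 ≤ w u ∧ w u ≤ 1) {q : ℝ} (hq0 : 0 < q) (hws : ∀ u, w u ≠ 0 → -1 < u ∧ u < 0)
    {x B m : ℕ} (hx : 0 < x) (hB0 : 0 < B) (hm0 : 0 < m) (hmq : (m : ℝ) ≤ q * x) {z η : ℝ}
    (hz : z = B / (8 * (x : ℝ) ^ 2 * q ^ 2)) (hz1 : z < 1) (hη : η = -Real.log (1 - z)) :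
    ∑' n : ℕ, vonMangoldt n * g (Real.log ((n : ℝ) / (x : ℝ) ^ 2)) *
      w ((Real.log n - Real.log (8 * (m : ℝ) ^ 2)) / η) ≤ Wm B m := by
  have hx0 : (0 : ℝ) < x := by exact_mod_cast hx
  have hB0' : (0 : ℝ) < B := by exact_mod_cast hB0
  have hz0 : 0 < z := by rw [hz]; positivity
  have hη0 : 0 < η := by
    rw [hη, neg_pos]
    exact Real.log_neg (by linarith) (by linarith)
  have hm0' : (0 : ℝ) < m := by exact_mod_cast hm0
  unfold Wm
  rw [tsum_eq_sum (s := Ico (8 * m ^ 2 - B) (8 * m ^ 2))]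
  · apply Finset.sum_le_sum
    intro n _
    have h2 := hg (Real.log ((n : ℝ) / (x : ℝ) ^ 2))
    have h3 := hw ((Real.log n - Real.log (8 * (m : ℝ) ^ 2)) / η)
    calc vonMangoldt n * g (Real.log ((n : ℝ) / (x : ℝ) ^ 2)) *
          w ((Real.log n - Real.log (8 * (m : ℝ) ^ 2)) / η)
        ≤ vonMangoldt n * 1 * 1 := by
          apply mul_le_mul _ h3.2 h3.1 (by
            have : 0 ≤ vonMangoldt n := vonMangoldt_nonneg
            linarith)
          exact mul_le_mul_of_nonneg_left h2.2 vonMangoldt_nonneg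
      _ = vonMangoldt n := by ring
  · intro n hn
    rcases Nat.eq_zero_or_pos n with h0 | h0
    · subst h0; simp
    · have hn0 : (0 : ℝ) < n := by exact_mod_cast h0
      have hw0 : w ((Real.log n - Real.log (8 * (m : ℝ) ^ 2)) / η) = 0 := by
        by_contra hc
        obtain ⟨h1, h2⟩ := hws _ hc
        apply hn
        rw [div_lt_iff₀ hη0, zero_mul] at h2
        rw [lt_div_iff₀ hη0] at h1
        have h3 : Real.log n < Real.log (8 * (m : ℝ) ^ 2) := by linarith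
        rw [Real.log_lt_log_iff hn0 (by positivity)] at h3
        have h4 : Real.log (8 * (m : ℝ) ^ 2 * (1 - z)) < Real.log n := by
          rw [Real.log_mul (by positivity) (by linarith)]
          linarith
        rw [Real.log_lt_log_iff (by apply mul_pos; positivity; linarith) hn0] at h4
        have h5 : 8 * (m : ℝ) ^ 2 * z ≤ B := by
          rw [hz]
          have h6 : 8 * (m : ℝ) ^ 2 * (B / (8 * (x : ℝ) ^ 2 * q ^ 2)) = B * ((m : ℝ) ^ 2 / (q * x) ^ 2) := by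
            field_simp
          rw [h6]
          have h7 : (m : ℝ) ^ 2 / (q * x) ^ 2 ≤ 1 := by
            rw [div_le_one (by positivity)]
            exact pow_le_pow_left₀ hm0'.le hmq 2
          nlinarith
        rw [mem_Ico]
        constructor
        · have h8 : ((8 * m ^ 2 : ℕ) : ℝ) < ((n + B : ℕ) : ℝ) := by
            push_cast
            nlinarith
          have h9 : 8 * m ^ 2 < n + B := by exact_mod_cast h8
          omega
        · exact_mod_cast h3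
      rw [hw0, mul_zero]

/-- the arithmetic of one block -/
private theorem LOC_arith {B x L e κ κ₁ z η W S T Sp p q : ℝ} {J : ℝ} (hx : 0 < x) (hB : 0 < B) (hL : 0 < L)
    (he : 0 ≤ e) (hκ : 0 < κ) (hκ1 : κ ≤ 1) (hκ₁ : κ₁ = κ / 32) (hJ : 1 ≤ J) (hJκ : 2 / J ≤ κ / 4)
    (hp : 1 ≤ p) (hpq : q = p + 1 / J)
    (hz : z = B / (8 * x ^ 2 * q ^ 2)) (hW : z * (1 - 4 * κ₁) ≤ W) (hη : η ≤ 2 * z)
    (hS : S = 8 * W * T) (hT : e * (p * x) ^ 2 ≤ T) (h1 : |Sp - S| ≤ η * (x ^ 3 / L))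
    (h2 : Sp ≤ e * ((1 - κ) * B)) : e * κ ≤ x / L := by
  have hJ0 : 0 < J := by linarith
  have hJi : 0 < 1 / J := by positivity
  have hq1 : 1 ≤ q := by linarith
  have hq0 : 0 < q := by linarith
  have hp0 : 0 < p := by linarith
  have hq2 : 1 ≤ q ^ 2 := by nlinarith
  have hz0 : 0 < z := by rw [hz]; positivity
  have hk : 0 ≤ 1 - 4 * κ₁ := by rw [hκ₁]; linarith
  have hW0 : 0 ≤ W := le_trans (mul_nonneg hz0.le hk) hW
  have c2 : 1 - 2 / J ≤ p ^ 2 / q ^ 2 := by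
    rw [le_div_iff₀ (by positivity), hpq]
    have c3 : (1 - 2 / J) * (p + 1 / J) ^ 2 = p ^ 2 + 2 * p / J * (1 - p) + (1 - 4 * p) / J ^ 2 - 2 / J ^ 3 := by
      field_simp
      ring
    rw [c3]
    have c4 : 2 * p / J * (1 - p) ≤ 0 := mul_nonpos_of_nonneg_of_nonpos (by positivity) (by linarith)
    have c5 : (1 - 4 * p) / J ^ 2 ≤ 0 := div_nonpos_of_nonpos_of_nonneg (by linarith) (by positivity)
    have c6 : 0 ≤ 2 / J ^ 3 := by positivity
    linarith
  have d1 : B * e * ((1 - 4 * κ₁) * (p ^ 2 / q ^ 2)) ≤ S := by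
    have e1 : B * e * ((1 - 4 * κ₁) * (p ^ 2 / q ^ 2)) = 8 * (z * (1 - 4 * κ₁)) * (e * (p * x) ^ 2) := by
      rw [hz]
      field_simp
    rw [e1, hS]
    have e2 : 8 * (z * (1 - 4 * κ₁)) ≤ 8 * W := by linarith
    exact mul_le_mul e2 hT (by positivity) (by linarith)
  have d2 : B * e * (1 - 3 / 8 * κ) ≤ B * e * ((1 - 4 * κ₁) * (p ^ 2 / q ^ 2)) := by
    apply mul_le_mul_of_nonneg_left _ (by positivity)
    have e3 : (1 - 4 * κ₁) * (1 - κ / 4) ≤ (1 - 4 * κ₁) * (p ^ 2 / q ^ 2) :=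
      mul_le_mul_of_nonneg_left (by linarith) hk
    refine le_trans ?_ e3
    rw [hκ₁]
    nlinarith
  have d3 : η * (x ^ 3 / L) ≤ B * (x / L) * (1 / 4) := by
    have e4 : η * (x ^ 3 / L) ≤ 2 * z * (x ^ 3 / L) := mul_le_mul_of_nonneg_right hη (by positivity)
    refine e4.trans ?_
    have e5 : 2 * z * (x ^ 3 / L) = B * (x / L) * (1 / 4) * (1 / q ^ 2) := by
      rw [hz]
      field_simp
      ring
    rw [e5]
    have e6 : 1 / q ^ 2 ≤ 1 := by
      rw [div_le_one (by positivity)]; exact hq2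
    calc B * (x / L) * (1 / 4) * (1 / q ^ 2) ≤ B * (x / L) * (1 / 4) * 1 :=
          mul_le_mul_of_nonneg_left e6 (by positivity)
      _ = _ := mul_one _
  have d4 := (abs_le.1 h1).1
  have d5 : B * (e * κ * (5 / 8)) ≤ B * (x / L * (1 / 4)) := by
    have e7 : B * (e * κ * (5 / 8)) = B * e * (1 - 3 / 8 * κ) - e * ((1 - κ) * B) := by ring
    have e8 : B * (x / L * (1 / 4)) = B * (x / L) * (1 / 4) := by ring
    rw [e7, e8]
    linarith
  have d6 : e * κ * (5 / 8) ≤ x / L * (1 / 4) := le_of_mul_le_mul_left d5 hB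
  have d7 : 0 ≤ x / L := by positivity
  linarith

theorem LOC (hBMP : BMP_stmt) (hINC : INC_stmt) (hSZC : SZC_stmt) : LOC_stmt := by
  intro κ A hκ
  rcases lt_or_ge 1 κ with hκ1 | hκ1
  · -- trivial case
    refine ⟨1, fun x hx B hB1 _ => ?_⟩
    have hx0 : (0 : ℝ) < x := by exact_mod_cast hx
    have hB0 : (0 : ℝ) < B := lt_of_lt_of_le (by positivity) hB1
    have h1 : ((Ioc x (2 * x)).filter fun m => Wm B m ≤ (1 - κ) * B) = ∅ := by
      rw [Finset.filter_eq_empty_iff]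
      intro m _ hc
      have h2 : 0 ≤ Wm B m := Finset.sum_nonneg fun _ _ => vonMangoldt_nonneg
      have h3 : (1 - κ) * B < 0 := mul_neg_of_neg_of_pos (by linarith) hB0
      linarith
    rw [h1]
    simp only [card_empty, CharP.cast_eq_zero]
    have h4 : 0 ≤ Real.log x := Real.log_nonneg (by exact_mod_cast hx)
    positivity
  obtain ⟨J, hJ⟩ := exists_nat_gt (8 / κ)
  have hJ0' : (0 : ℝ) < J := lt_trans (by positivity) hJ
  have hJ0 : 0 < J := by exact_mod_cast hJ0'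
  have hJ1 : (1 : ℝ) ≤ J := by exact_mod_cast hJ0
  have hJκ : 2 / (J : ℝ) ≤ κ / 4 := by
    rw [div_lt_iff₀ hκ] at hJ
    rw [div_le_iff₀ hJ0']
    nlinarith
  set κ₁ : ℝ := κ / 32 with hκ₁
  have hk0 : 0 < κ₁ := by positivity
  have hk1 : κ₁ ≤ 1 / 32 := by rw [hκ₁]; linarith
  obtain ⟨g, hg, hg01, hgs, hg1⟩ := hBMP 1 4 (1 / 20) (by norm_num) (by norm_num)
  obtain ⟨w, hw, hw01, hws, hw1⟩ := hBMP (-1) 0 κ₁ hk0 (by linarith)
  obtain ⟨x1, hx1⟩ := hINC g w hg hw (fun u hu => ⟨(hgs u hu).1.le, (hgs u hu).2.le⟩) (A + 1)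
  have hSZ := hSZC g w hg hw (fun u hu => by
    obtain ⟨h1, h2⟩ := hws u hu
    constructor <;> linarith) (fun u h1 h2 => hg1 u (by linarith) (by linarith))
  obtain ⟨x2, hx2⟩ : ∃ x2 : ℕ, ∀ x : ℕ, x2 ≤ x → (J / κ : ℝ) + 1 ≤ Real.log x := by
    have h1 : Filter.Tendsto (fun x : ℕ => Real.log x) Filter.atTop Filter.atTop :=
      Real.tendsto_log_atTop.comp tendsto_natCast_atTop_atTop
    obtain ⟨N, hN⟩ := Filter.eventually_atTop.1 (h1.eventually_ge_atTop ((J / κ : ℝ) + 1))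
    exact ⟨N, hN⟩
  refine ⟨x1 + x2 + 1, fun x hx B hB1 hB2 => ?_⟩
  have hxpos : 0 < x := by omega
  have hx0 : (0 : ℝ) < x := by exact_mod_cast hxpos
  have hBpos' : (0 : ℝ) < B := lt_of_lt_of_le (by positivity) hB1
  have hBpos : 0 < B := by exact_mod_cast hBpos'
  have hB2' : (B : ℝ) ≤ (x : ℝ) ^ 2 := by exact_mod_cast hB2
  have hL := hx2 x (by omega)
  set L : ℝ := Real.log x with hLd
  have hLJ : (J / κ : ℝ) ≤ L := by linarith
  have hL0 : 0 < L := by
    have : 0 ≤ (J / κ : ℝ) := by positivity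
    linarith
  -- the blocks
  let E : ℕ → Finset ℕ := fun j => (Ioc x (2 * x)).filter fun m : ℕ =>
    ((J * x + j * x < J * m ∧ J * m ≤ J * x + (j + 1) * x) ∧ Wm B m ≤ (1 - κ) * B)
  have hcov : ((Ioc x (2 * x)).filter fun m => Wm B m ≤ (1 - κ) * B) ⊆ (range J).biUnion E := by
    intro m hm
    rw [mem_filter, mem_Ioc] at hm
    obtain ⟨⟨hm1, hm2⟩, hm3⟩ := hm
    obtain ⟨j, hj⟩ : ∃ j, j = (J * (m - x) - 1) / x := ⟨_, rfl⟩
    have hJm : 1 ≤ J * (m - x) := Nat.mul_pos (by omega) (by omega)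
    have hJm2 : J * (m - x) ≤ J * x := Nat.mul_le_mul_left _ (by omega)
    have hjJ : j < J := by
      rw [hj, Nat.div_lt_iff_lt_mul (by omega)]
      omega
    have e1 : j * x ≤ J * (m - x) - 1 := by
      rw [hj]
      exact Nat.div_mul_le_self _ _
    have e2 : J * (m - x) - 1 < (j + 1) * x := by
      have := Nat.lt_mul_div_succ (J * (m - x) - 1) (show 0 < x by omega)
      rw [← hj] at this
      calc J * (m - x) - 1 < x * (j + 1) := this
        _ = (j + 1) * x := by ring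
    have e3 : J * m = J * (m - x) + J * x := by
      rw [← Nat.mul_add]
      congr 1
      omega
    refine mem_biUnion.2 ⟨j, mem_range.2 hjJ, ?_⟩
    refine mem_filter.2 ⟨mem_Ioc.2 ⟨hm1, hm2⟩, ⟨?_, ?_⟩, hm3⟩
    · omega
    · omega
  -- one block
  have hblock : ∀ j ∈ range J, ((E j).card : ℝ) * κ ≤ x / L ^ (A + 1) := by
    intro j hj
    have hj' := mem_range.1 hj
    set p : ℝ := 1 + (j : ℝ) / J with hp
    set q : ℝ := 1 + ((j + 1 : ℕ) : ℝ) / J with hqd
    have h3 : 1 ≤ p := by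
      have : 0 ≤ (j : ℝ) / J := by positivity
      linarith
    have h4 : q ≤ 2 := by
      have : ((j + 1 : ℕ) : ℝ) / J ≤ 1 := by
        rw [div_le_one hJ0']
        exact_mod_cast hj'
      linarith
    have hpq : q = p + 1 / J := by
      rw [hp, hqd]; push_cast; ring
    have hJi : 0 < 1 / (J : ℝ) := by positivity
    have hq1 : 1 ≤ q := by linarith
    have hp0 : 0 < p := by linarith
    have hq0 : 0 < q := by linarith
    have hq2 : (1 : ℝ) ≤ q ^ 2 := by nlinarith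
    have hq4 : q ^ 2 ≤ 4 := by nlinarith
    set z : ℝ := B / (8 * (x : ℝ) ^ 2 * q ^ 2) with hz
    set η : ℝ := -Real.log (1 - z) with hη
    have hz0 : 0 < z := by positivity
    have hz8 : z ≤ 1 / 8 := by
      rw [hz, div_le_div_iff₀ (by positivity) (by norm_num)]
      nlinarith [sq_nonneg (x : ℝ)]
    have hz1 : 0 < 1 - z := by linarith
    have hηz : z ≤ η := by
      have := Real.log_le_sub_one_of_pos hz1
      rw [hη]; linarith
    have hηz2 : η ≤ 2 * z := by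
      have := Real.one_sub_inv_le_log_of_pos hz1
      have h5 : (1 - z)⁻¹ ≤ 1 + 2 * z := by
        rw [inv_le_iff_one_le_mul₀ hz1]
        nlinarith
      rw [hη]; linarith
    have hη0 : 0 < η := lt_of_lt_of_le hz0 hηz
    have hηexp : 1 - Real.exp (-η) = z := by
      rw [hη, neg_neg, Real.exp_log hz1]; ring
    have hηlow : (x : ℝ) ^ (-(1323 / 1000 : ℝ)) / 32 ≤ η := by
      refine le_trans ?_ hηz
      rw [hz, div_le_div_iff₀ (by norm_num) (by positivity)]
      have h7 : (x : ℝ) ^ (677 / 1000 : ℝ) = (x : ℝ) ^ (-(1323 / 1000 : ℝ)) * (x : ℝ) ^ 2 := by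
        rw [← Real.rpow_natCast x 2, ← Real.rpow_add hx0]
        congr 1
        push_cast
        norm_num
      have h8 : (x : ℝ) ^ (-(1323 / 1000 : ℝ)) * (8 * (x : ℝ) ^ 2 * q ^ 2) =
          8 * ((x : ℝ) ^ (677 / 1000 : ℝ)) * q ^ 2 := by
        rw [h7]; ring
      rw [h8]
      have h9 : 8 * ((x : ℝ) ^ (677 / 1000 : ℝ)) * q ^ 2 ≤ 8 * ((x : ℝ) ^ (677 / 1000 : ℝ)) * 4 :=
        mul_le_mul_of_nonneg_left hq4 (by positivity)
      linarith
    let c : ℕ → ℝ := fun m => if m ∈ E j then 1 else 0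
    have hc1 : ∀ m, |c m| ≤ 1 := by
      intro m
      by_cases hm : m ∈ E j
      · simp [c, hm]
      · simp [c, hm]
    have a1 := hx1 x (by omega) η hηlow (by linarith) c hc1
    have a2 := hSZ c x η hxpos hη0 (by linarith)
    have a3 := LOC_w hw (fun u => (hw01 u).1) hk0 (by linarith) hη0 hw1
    have a5 : z * (1 - 4 * κ₁) ≤ η * ∫ v : ℝ, w v * Real.exp (η * v) := by
      rw [hηexp] at a3
      nlinarith
    have hEsub : E j ⊆ Ioc x (2 * x) := filter_subset _ _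
    have hEm : ∀ m ∈ E j, p * x ≤ (m : ℝ) ∧ (m : ℝ) ≤ q * x ∧ 0 < m ∧ Wm B m ≤ (1 - κ) * B := by
      intro m hm
      obtain ⟨b1, ⟨b2, b3⟩, b4⟩ := mem_filter.1 hm
      rw [mem_Ioc] at b1
      have b2' : (J : ℝ) * x + j * x < J * m := by exact_mod_cast b2
      have b3' : (J : ℝ) * m ≤ J * x + ((j + 1 : ℕ) : ℝ) * x := by exact_mod_cast b3
      refine ⟨?_, ?_, by omega, b4⟩
      · have e1 : p * x = (J * x + j * x) / J := by rw [hp]; field_simp
        rw [e1, div_le_iff₀ hJ0']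
        linarith
      · have e1 : q * x = (J * x + ((j + 1 : ℕ) : ℝ) * x) / J := by rw [hqd]; field_simp
        rw [e1, le_div_iff₀ hJ0']
        linarith
    have hsumc : ∀ f : ℕ → ℝ, ∑ m ∈ Ioc x (2 * x), c m * f m = ∑ m ∈ E j, f m := by
      intro f
      have e1 : ∀ m ∈ Ioc x (2 * x), c m * f m = if m ∈ E j then f m else 0 := by
        intro m _
        by_cases hm : m ∈ E j
        · simp [c, hm]
        · simp [c, hm]
      rw [Finset.sum_congr rfl e1, Finset.sum_ite_mem, Finset.inter_eq_right.2 hEsub]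
    have hT : ((E j).card : ℝ) * (p * x) ^ 2 ≤ ∑ m ∈ Ioc x (2 * x), c m * (m : ℝ) ^ 2 := by
      rw [hsumc (fun m => (m : ℝ) ^ 2), ← nsmul_eq_mul]
      exact Finset.card_nsmul_le_sum _ _ _ fun m hm => pow_le_pow_left₀ (by positivity) (hEm m hm).1 2
    have hSp : Spc c g w x η ≤ ((E j).card : ℝ) * ((1 - κ) * B) := by
      unfold Spc
      rw [hsumc (fun m => ∑' n : ℕ, vonMangoldt n * g (Real.log ((n : ℝ) / (x : ℝ) ^ 2)) *
        w ((Real.log n - Real.log (8 * (m : ℝ) ^ 2)) / η)), ← nsmul_eq_mul]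
      refine Finset.sum_le_card_nsmul _ _ _ fun m hm => ?_
      obtain ⟨-, b2, b3, b4⟩ := hEm m hm
      exact (LOC_inner hg01 hw01 hq0 hws hxpos hBpos b3 b2 hz (by linarith) hη).trans b4
    exact LOC_arith hx0 hBpos' (by positivity) (by positivity) hκ hκ1 hκ₁ hJ1 hJκ h3 hpq hz a5 hηz2 a2 hT a1 hSp
  have hcard : (#((Ioc x (2 * x)).filter fun m => Wm B m ≤ (1 - κ) * B) : ℝ) ≤ ∑ j ∈ range J, ((E j).card : ℝ) := by
    have h1 : #((Ioc x (2 * x)).filter fun m => Wm B m ≤ (1 - κ) * B) ≤ ∑ j ∈ range J, (E j).card :=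
      (Finset.card_le_card hcov).trans Finset.card_biUnion_le
    exact_mod_cast h1
  have hsum : (∑ j ∈ range J, ((E j).card : ℝ)) * κ ≤ J * (x / L ^ (A + 1)) := by
    rw [Finset.sum_mul]
    refine (Finset.sum_le_card_nsmul _ _ _ hblock).trans (le_of_eq ?_)
    rw [card_range, nsmul_eq_mul]
  refine hcard.trans ?_
  have h5 : (∑ j ∈ range J, ((E j).card : ℝ)) ≤ J * (x / L ^ (A + 1)) / κ := by
    rw [le_div_iff₀ hκ]
    exact hsum
  refine h5.trans ?_
  have h6 : J * (x / L ^ (A + 1)) / κ = (J / κ) / L * (x / L ^ A) := by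
    rw [pow_succ]
    field_simp
  rw [h6]
  have h7 : (J / κ) / L ≤ 1 := by
    rw [div_le_one hL0]
    exact hLJ
  calc (J / κ) / L * (x / L ^ A) ≤ 1 * (x / L ^ A) := mul_le_mul_of_nonneg_right h7 (by positivity)
    _ = _ := one_mul _

end Pool.Agent.SCV
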