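import Pool.Agent.helper16.SCV.Spec

/-!
# MP_ad8ced_nt, row scv:SZC
-/

set_option autoImplicit false

namespace Pool.Agent.SCV

open Finset ArithmeticFunction MeasureTheory
open Pool.Agent.SCT

/-- The substitution `y = M e^(ηv)`. -/
private theorem SZC_cv (M η : ℝ) (hM : 0 < M) (hη : 0 < η) (F : ℝ → ℝ) :
    ∫ y in Set.Ioi (0 : ℝ), F y =
      ∫ v : ℝ, (M * (Real.exp (η * v) * η)) * F (M * Real.exp (η * v)) := by
  have him : (fun v : ℝ => M * Real.exp (η * v)) '' Set.univ = Set.Ioi 0 := by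
    ext y
    simp only [Set.mem_image, Set.mem_univ, true_and, Set.mem_Ioi]
    constructor
    · rintro ⟨v, rfl⟩
      exact mul_pos hM (Real.exp_pos _)
    · intro hy
      refine ⟨Real.log (y / M) / η, ?_⟩
      rw [mul_div_cancel₀ _ hη.ne', Real.exp_log (div_pos hy hM), mul_div_cancel₀ _ hM.ne']
  have hder : ∀ v ∈ (Set.univ : Set ℝ), HasDerivWithinAt (fun v : ℝ => M * Real.exp (η * v))
      (M * (Real.exp (η * v) * η)) Set.univ v := by
    intro v _
    have h1 : HasDerivAt (fun v : ℝ => η * v) η v := by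
      simpa using (hasDerivAt_id v).const_mul η
    exact ((h1.exp).const_mul M).hasDerivWithinAt
  have hinj : Set.InjOn (fun v : ℝ => M * Real.exp (η * v)) Set.univ := by
    intro a _ b _ hab
    have h1 : Real.exp (η * a) = Real.exp (η * b) := mul_left_cancel₀ hM.ne' hab
    exact mul_left_cancel₀ hη.ne' (Real.exp_injective h1)
  have key := MeasureTheory.integral_image_eq_integral_abs_deriv_smul MeasurableSet.univ hder hinj F
  rw [him, MeasureTheory.setIntegral_univ] at key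
  rw [key]
  refine MeasureTheory.integral_congr_ae (Filter.Eventually.of_forall fun v => ?_)
  show |M * (Real.exp (η * v) * η)| • F (M * Real.exp (η * v)) = _
  rw [abs_of_pos (mul_pos hM (mul_pos (Real.exp_pos _) hη)), smul_eq_mul]

/-- The inner integral. -/
private theorem SZC_inner (g w : ℝ → ℝ) (hw : ∀ u, w u ≠ 0 → -2 ≤ u ∧ u ≤ 1)
    (hg : ∀ u, 11 / 10 ≤ u → u ≤ 79 / 20 → g u = 1) (x m : ℕ) (hx : 0 < x) (hm : 0 < m) (η : ℝ)
    (hη : 0 < η) (hη' : η ≤ 1 / 4) (h1 : -(1 / 10) ≤ Real.log ((m : ℝ) / x))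
    (h2 : Real.log ((m : ℝ) / x) ≤ 4 / 5) :
    ∫ y in Set.Ioi (0 : ℝ), g (Real.log (y / (x : ℝ) ^ 2)) *
      w ((Real.log y - Real.log (8 * (m : ℝ) ^ 2)) / η) =
    8 * (m : ℝ) ^ 2 * η * ∫ v : ℝ, w v * Real.exp (η * v) := by
  have hx' : (0 : ℝ) < x := by exact_mod_cast hx
  have hm' : (0 : ℝ) < m := by exact_mod_cast hm
  have hM : (0 : ℝ) < 8 * (m : ℝ) ^ 2 := by positivity
  rw [SZC_cv (8 * (m : ℝ) ^ 2) η hM hη, ← MeasureTheory.integral_const_mul]
  refine MeasureTheory.integral_congr_ae (Filter.Eventually.of_forall fun v => ?_)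
  show (8 * (m : ℝ) ^ 2 * (Real.exp (η * v) * η)) *
      (g (Real.log (8 * (m : ℝ) ^ 2 * Real.exp (η * v) / (x : ℝ) ^ 2)) *
        w ((Real.log (8 * (m : ℝ) ^ 2 * Real.exp (η * v)) - Real.log (8 * (m : ℝ) ^ 2)) / η)) =
    8 * (m : ℝ) ^ 2 * η * (w v * Real.exp (η * v))
  have e1 : (Real.log (8 * (m : ℝ) ^ 2 * Real.exp (η * v)) - Real.log (8 * (m : ℝ) ^ 2)) / η = v := by
    rw [Real.log_mul hM.ne' (Real.exp_pos _).ne', Real.log_exp, add_sub_cancel_left,
      mul_div_cancel_left₀ _ hη.ne']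
  rw [e1]
  by_cases hv : w v = 0
  · rw [hv]
    ring
  · obtain ⟨hv1, hv2⟩ := hw v hv
    have e2 : Real.log (8 * (m : ℝ) ^ 2 * Real.exp (η * v) / (x : ℝ) ^ 2) =
        3 * Real.log 2 + 2 * Real.log ((m : ℝ) / x) + η * v := by
      rw [Real.log_div (mul_pos hM (Real.exp_pos _)).ne' (by positivity),
        Real.log_mul hM.ne' (Real.exp_pos _).ne', Real.log_exp,
        Real.log_mul (by norm_num) (by positivity), Real.log_pow, Real.log_pow,
        Real.log_div hm'.ne' hx'.ne', show (8 : ℝ) = 2 ^ 3 by norm_num, Real.log_pow]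
      push_cast
      ring
    have l1 := Real.log_two_gt_d9
    have l2 := Real.log_two_lt_d9
    have b1 : -(1 / 2) ≤ η * v := by nlinarith
    have b2 : η * v ≤ 1 / 4 := by nlinarith
    rw [e2, hg _ (by linarith) (by linarith)]
    ring

theorem SZC : SZC_stmt := by
  intro g w _ _ hw hg c x η hx hη hη'
  have hx2 : 0 < x := hx
  have hx' : (0 : ℝ) < x := by exact_mod_cast hx2
  unfold S0c
  rw [Finset.mul_sum]
  refine Finset.sum_congr rfl fun m hm => ?_
  rw [Finset.mem_Ioc] at hm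
  have hm0 : 0 < m := by omega
  have hm1 : (x : ℝ) < m := by exact_mod_cast hm.1
  have hm2 : (m : ℝ) ≤ 2 * x := by exact_mod_cast hm.2
  have l2 := Real.log_two_lt_d9
  have a1 : 0 ≤ Real.log ((m : ℝ) / x) :=
    Real.log_nonneg ((one_le_div hx').2 hm1.le)
  have a2 : Real.log ((m : ℝ) / x) ≤ Real.log 2 :=
    Real.log_le_log (by positivity) ((div_le_iff₀ hx').2 hm2)
  rw [SZC_inner g w hw hg x m hx2 hm0 η hη hη' (by linarith) (by linarith)]
  ring

end Pool.Agent.SCV
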