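import Pool.Agent.helper16.SCV.Spec

/-!
# MP_ad8ced_nt, row scv:UPC
-/

set_option autoImplicit false

namespace Pool.Agent.SCV

open Finset ArithmeticFunction MeasureTheory
open Pool.Agent.SCT

private theorem UPC_van {φ : ℝ → ℝ} {R : ℝ} (hR : ∀ u, φ u ≠ 0 → |u| ≤ R) {N : ℝ} (hN : 0 < N) (n : ℕ)
    (hn : N * Real.exp R < n) : φ (Real.log ((n : ℝ) / N)) = 0 := by
  by_contra hc
  have h3 := hR _ hc
  have h5 : Real.exp R < (n : ℝ) / N := by
    rw [lt_div_iff₀ hN]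
    linarith [mul_comm N (Real.exp R)]
  have h6 : R < Real.log ((n : ℝ) / N) := by
    rw [Real.lt_log_iff_exp_lt ((Real.exp_pos R).trans h5)]
    exact h5
  linarith [le_abs_self (Real.log ((n : ℝ) / N))]

/-- the integral of a bump against an exponential -/
private theorem UPC_int {w : ℝ → ℝ} (hw : Sm w) {a b c : ℝ} (hab : a ≤ b) (hc : 0 < c) (hw1 : ∀ u, w u ≤ 1)
    (hws : ∀ u, w u ≠ 0 → a < u ∧ u < b) :
    c * ∫ v : ℝ, w v * Real.exp (c * v) ≤ Real.exp (c * b) - Real.exp (c * a) := by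
  have hcont : Continuous fun v : ℝ => Real.exp (c * v) := by fun_prop
  have h1 : ∫ v : ℝ, w v * Real.exp (c * v) ≤ ∫ v in a..b, Real.exp (c * v) := by
    rw [intervalIntegral.integral_of_le hab, ← integral_indicator measurableSet_Ioc]
    refine integral_mono ?_ ?_ fun v => ?_
    · exact (hw.cont.mul hcont).integrable_of_hasCompactSupport hw.2.mul_right
    · exact (integrable_indicator_iff measurableSet_Ioc).2
        ((hcont.integrableOn_Icc).mono_set Set.Ioc_subset_Icc_self)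
    · by_cases hv : w v = 0
      · simp only [hv, zero_mul]
        exact Set.indicator_nonneg (fun _ _ => (Real.exp_pos _).le) v
      · have h2 := hws v hv
        have h3 : v ∈ Set.Ioc a b := ⟨h2.1, h2.2.le⟩
        simp only [Set.indicator_of_mem h3]
        exact mul_le_of_le_one_left (Real.exp_pos _).le (hw1 v)
  have h2 : ∫ v in a..b, c * Real.exp (c * v) = Real.exp (c * b) - Real.exp (c * a) := by
    refine intervalIntegral.integral_eq_sub_of_hasDerivAt (f := fun v => Real.exp (c * v)) (fun v _ => ?_) ?_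
    · have := ((hasDerivAt_id v).const_mul c).exp
      simpa [mul_comm] using this
    · exact (continuous_const.mul hcont).intervalIntegrable _ _
  rw [intervalIntegral.integral_const_mul] at h2
  rw [← h2]
  exact mul_le_mul_of_nonneg_left h1 hc.le

/-- `e^y ≤ 1 + 2y` -/
private theorem UPC_exp {y : ℝ} (hy0 : 0 ≤ y) (hy : y ≤ 1) : Real.exp y ≤ 1 + 2 * y := by
  have h1 : |y| ≤ 1 := by rw [abs_of_nonneg hy0]; exact hy
  have h2 := Real.abs_exp_sub_one_sub_id_le h1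
  have h3 := (abs_le.1 h2).2
  nlinarith

/-- the time side -/
private theorem UPC_w {w : ℝ → ℝ} (hw : Sm w) {k z η : ℝ} (hk : 0 < k) (hk1 : k ≤ 1 / 10) (hz : 0 < z) (hz1 : z ≤ 1 / 8)
    (hη : η = -Real.log (1 - z)) (hη1 : z ≤ η) (hη2 : η ≤ 2 * z) (hw1 : ∀ u, w u ≤ 1)
    (hws : ∀ u, w u ≠ 0 → -1 - k < u ∧ u < k) :
    η * ∫ v : ℝ, w v * Real.exp (η * v) ≤ z * (1 + 6 * k) := by
  have hη0 : 0 < η := by linarith
  have h1 := UPC_int hw (by linarith : -1 - k ≤ k) hη0 hw1 hws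
  have h2 : Real.exp (η * k) ≤ 1 + 2 * (η * k) := UPC_exp (by positivity) (by nlinarith)
  have h3 : Real.exp (-η) = 1 - z := by
    rw [hη, neg_neg, Real.exp_log (by linarith)]
  have h4 : Real.exp (η * (-1 - k)) = (1 - z) * Real.exp (-(η * k)) := by
    rw [← h3, ← Real.exp_add]
    congr 1
    ring
  have h5 : 1 - η * k ≤ Real.exp (-(η * k)) := by
    have := Real.add_one_le_exp (-(η * k))
    linarith
  have h6 : (1 - z) * (1 - η * k) ≤ (1 - z) * Real.exp (-(η * k)) := mul_le_mul_of_nonneg_left h5 (by linarith)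
  have h7 : η * k ≤ 2 * z * k := mul_le_mul_of_nonneg_right hη2 hk.le
  have h8 : 0 ≤ z * (η * k) := by positivity
  nlinarith

/-- `z ≤ -log(1-z) ≤ 2z` -/
private theorem UPC_eta {z : ℝ} (hz : 0 < z) (hz1 : z ≤ 1 / 8) : z ≤ -Real.log (1 - z) ∧ -Real.log (1 - z) ≤ 2 * z := by
  have h0 : 0 < 1 - z := by linarith
  constructor
  · have := Real.log_le_sub_one_of_pos h0
    linarith
  · have h1 := Real.log_le_sub_one_of_pos (inv_pos.2 h0)
    rw [Real.log_inv] at h1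
    have h2 : (1 - z)⁻¹ ≤ 1 + 2 * z := by
      rw [inv_eq_one_div, div_le_iff₀ h0]
      nlinarith
    linarith

/-- the weights are `1` -/
private theorem UPC_one {x m n B j J : ℕ} (hx : 1 ≤ x) (hB : B ≤ x ^ 2) (hB0 : 1 ≤ B) (hJ : 1 ≤ J)
    (hm : x < m) (hm2 : m ≤ 2 * x)
    (hj1 : j * x + J * x ≤ J * m) (hj2 : J * m ≤ (j + 1) * x + J * x)
    (hn : 8 * m ^ 2 - B ≤ n) (hn2 : n < 8 * m ^ 2) {z : ℝ}
    (hz : z = B / (8 * (x : ℝ) ^ 2 * (1 + (j : ℝ) / J) ^ 2)) (hz1 : z ≤ 1 / 8) :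
    (Real.log (1 + (j : ℝ) / J) ≤ Real.log ((m : ℝ) / x) ∧
      Real.log ((m : ℝ) / x) ≤ Real.log (1 + ((j : ℝ) + 1) / J)) ∧
    (21 / 20 ≤ Real.log ((n : ℝ) / (x : ℝ) ^ 2) ∧ Real.log ((n : ℝ) / (x : ℝ) ^ 2) ≤ 79 / 20) ∧
    (-1 ≤ (Real.log n - Real.log (8 * (m : ℝ) ^ 2)) / -Real.log (1 - z) ∧
      (Real.log n - Real.log (8 * (m : ℝ) ^ 2)) / -Real.log (1 - z) ≤ 0) := by
  have hx0 : (0 : ℝ) < x := by exact_mod_cast hx
  have hJ0 : (0 : ℝ) < J := by exact_mod_cast hJ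
  have hm0 : (x : ℝ) < m := by exact_mod_cast hm
  have hm2' : (m : ℝ) ≤ 2 * x := by exact_mod_cast hm2
  have hmp : (0 : ℝ) < m := hx0.trans hm0
  have hB' : (B : ℝ) ≤ (x : ℝ) ^ 2 := by exact_mod_cast hB
  have hBp : (0 : ℝ) < B := by exact_mod_cast hB0
  have hj1' : (j : ℝ) * x + J * x ≤ J * m := by exact_mod_cast hj1
  have hj2' : (J : ℝ) * m ≤ ((j : ℝ) + 1) * x + J * x := by exact_mod_cast hj2
  have hsub : B ≤ 8 * m ^ 2 := by nlinarith
  have hn' : 8 * (m : ℝ) ^ 2 - B ≤ n := by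
    have : 8 * m ^ 2 ≤ n + B := by omega
    have h2 : 8 * (m : ℝ) ^ 2 ≤ n + B := by exact_mod_cast this
    linarith
  have hn2' : (n : ℝ) < 8 * (m : ℝ) ^ 2 := by exact_mod_cast hn2
  have hxm : (x : ℝ) ^ 2 ≤ (m : ℝ) ^ 2 := by nlinarith
  have hxm2 : (m : ℝ) ^ 2 ≤ 4 * (x : ℝ) ^ 2 := by nlinarith
  have hx2 : (0 : ℝ) < (x : ℝ) ^ 2 := by positivity
  have hn7 : 7 * (x : ℝ) ^ 2 ≤ n := by nlinarith
  have hnp : (0 : ℝ) < n := by nlinarith
  have hs1 : 1 + (j : ℝ) / J ≤ (m : ℝ) / x := by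
    rw [le_div_iff₀ hx0]
    have : (1 + (j : ℝ) / J) * x = (j * x + J * x) / J := by field_simp; ring
    rw [this, div_le_iff₀ hJ0]
    linarith
  refine ⟨⟨?_, ?_⟩, ⟨?_, ?_⟩, ?_⟩
  · exact Real.log_le_log (by positivity) hs1
  · refine Real.log_le_log (by positivity) ?_
    rw [div_le_iff₀ hx0]
    have : (1 + ((j : ℝ) + 1) / J) * x = ((j + 1) * x + J * x) / J := by field_simp; ring
    rw [this, le_div_iff₀ hJ0]
    linarith
  · have h1 : (4 : ℝ) ≤ (n : ℝ) / (x : ℝ) ^ 2 := by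
      rw [le_div_iff₀ hx2]
      linarith
    have h2 : Real.log 4 ≤ Real.log ((n : ℝ) / (x : ℝ) ^ 2) := Real.log_le_log (by norm_num) h1
    have h3 : Real.log 4 = 2 * Real.log 2 := by
      rw [show (4 : ℝ) = 2 ^ 2 by norm_num, Real.log_pow]
      norm_num
    have h4 := Real.log_two_gt_d9
    linarith
  · have h1 : (n : ℝ) / (x : ℝ) ^ 2 ≤ 32 := by
      rw [div_le_iff₀ hx2]
      nlinarith
    have h2 : Real.log ((n : ℝ) / (x : ℝ) ^ 2) ≤ Real.log 32 := Real.log_le_log (by positivity) h1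
    have h3 : Real.log 32 = 5 * Real.log 2 := by
      rw [show (32 : ℝ) = 2 ^ 5 by norm_num, Real.log_pow]
      norm_num
    have h4 := Real.log_two_lt_d9
    linarith
  · have hz0 : 0 < z := by
      rw [hz]
      positivity
    have hη : 0 < -Real.log (1 - z) := lt_of_lt_of_le hz0 (UPC_eta hz0 hz1).1
    have h8 : (1 - z) * (8 * (m : ℝ) ^ 2) ≤ n := by
      have e1 : (B : ℝ) ≤ z * (8 * (m : ℝ) ^ 2) := by
        have e2 : (1 + (j : ℝ) / J) * x ≤ m := by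
          rw [le_div_iff₀ hx0] at hs1
          exact hs1
        have e3 : ((1 + (j : ℝ) / J) * x) ^ 2 ≤ (m : ℝ) ^ 2 := pow_le_pow_left₀ (by positivity) e2 2
        calc (B : ℝ) = z * (8 * ((1 + (j : ℝ) / J) * x) ^ 2) := by
              rw [hz]
              field_simp
          _ ≤ z * (8 * (m : ℝ) ^ 2) := by
              refine mul_le_mul_of_nonneg_left ?_ hz0.le
              linarith
      linarith
    have h9 : Real.log (1 - z) + Real.log (8 * (m : ℝ) ^ 2) ≤ Real.log n := by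
      rw [← Real.log_mul (by linarith) (by positivity)]
      exact Real.log_le_log (by
        have : 0 < 1 - z := by linarith
        positivity) h8
    have h10 : Real.log n ≤ Real.log (8 * (m : ℝ) ^ 2) := Real.log_le_log hnp hn2'.le
    constructor
    · rw [le_div_iff₀ hη]
      linarith
    · exact div_nonpos_of_nonpos_of_nonneg (by linarith) hη.le

/-- the inner sum over `n` -/
private theorem UPC_inner {g w : ℝ → ℝ} (hg : Sm g) (hg0 : ∀ u, 0 ≤ g u) (hw0 : ∀ u, 0 ≤ w u)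
    (x : ℕ) (hx : 1 ≤ x) (η y : ℝ) (G : Finset ℕ)
    (h1 : ∀ n ∈ G, g (Real.log ((n : ℝ) / (x : ℝ) ^ 2)) = 1 ∧ w ((Real.log n - y) / η) = 1) :
    ∑ n ∈ G, vonMangoldt n ≤ ∑' n : ℕ, vonMangoldt n * g (Real.log ((n : ℝ) / (x : ℝ) ^ 2)) *
      w ((Real.log n - y) / η) := by
  have hx0 : (0 : ℝ) < x := by exact_mod_cast hx
  obtain ⟨S, -, hS, -⟩ := hg.bound
  have hnn : ∀ n : ℕ, 0 ≤ vonMangoldt n * g (Real.log ((n : ℝ) / (x : ℝ) ^ 2)) *
      w ((Real.log n - y) / η) := fun n =>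
    mul_nonneg (mul_nonneg vonMangoldt_nonneg (hg0 _)) (hw0 _)
  have hin : Summable fun n : ℕ => vonMangoldt n * g (Real.log ((n : ℝ) / (x : ℝ) ^ 2)) *
      w ((Real.log n - y) / η) := by
    refine summable_of_ne_finset_zero (s := range (⌊(x : ℝ) ^ 2 * Real.exp S⌋₊ + 1)) fun n hn => ?_
    have h1 : ⌊(x : ℝ) ^ 2 * Real.exp S⌋₊ < n := by
      by_contra hc
      exact hn (mem_range.2 (by omega))
    have h2 : (x : ℝ) ^ 2 * Real.exp S < n := (Nat.floor_lt (by positivity)).1 h1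
    rw [UPC_van hS (by positivity) n h2]
    ring
  calc ∑ n ∈ G, vonMangoldt n = ∑ n ∈ G, vonMangoldt n * g (Real.log ((n : ℝ) / (x : ℝ) ^ 2)) *
        w ((Real.log n - y) / η) := by
        refine Finset.sum_congr rfl fun n hn => ?_
        rw [(h1 n hn).1, (h1 n hn).2]
        ring
    _ ≤ _ := hin.sum_le_tsum _ fun n _ => hnn n

/-- the arithmetic of one block -/
private theorem UPC_arith {B x L e κ κ₁ z η W S T Sp p q : ℝ} {J : ℝ} (hx : 0 < x) (hB : 0 < B) (hL : 0 < L)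
    (he : 0 ≤ e) (hκ : 0 < κ) (hκ1 : κ ≤ 1) (hκ₁ : κ₁ = κ / 32) (hJ : 1 ≤ J) (hJκ : 3 / J ≤ κ / 8)
    (hp : 1 ≤ p) (hpq : q = p + 1 / J)
    (hz : z = B / (8 * x ^ 2 * p ^ 2)) (hW : W ≤ z * (1 + 6 * κ₁)) (hη : η ≤ 2 * z)
    (hS : S = 8 * W * T) (hT0 : 0 ≤ T) (hT : T ≤ e * (q * x) ^ 2) (h1 : |Sp - S| ≤ η * (x ^ 3 / L))
    (h2 : e * ((1 + κ) * B) ≤ Sp) : e * κ ≤ x / L := by
  have hJ0 : 0 < J := by linarith
  have hJi : 0 < 1 / J := by positivity
  have hq1 : 1 ≤ q := by linarith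
  have hq0 : 0 < q := by linarith
  have hp0 : 0 < p := by linarith
  have hp2 : 1 ≤ p ^ 2 := by nlinarith
  have hz0 : 0 < z := by rw [hz]; positivity
  have hk0 : 0 < κ₁ := by rw [hκ₁]; linarith
  have c2 : q ^ 2 / p ^ 2 ≤ 1 + 3 / J := by
    rw [div_le_iff₀ (by positivity)]
    have hts : q ≤ p * (1 + 1 / J) := by
      rw [hpq]
      nlinarith
    have e1 : q ^ 2 ≤ (p * (1 + 1 / J)) ^ 2 := pow_le_pow_left₀ hq0.le hts 2
    have e2 : (1 + 1 / J) ^ 2 ≤ 1 + 3 / J := by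
      have e3 : 1 / J ≤ 1 := by
        rw [div_le_one hJ0]
        exact hJ
      have e5 : 3 / J = 3 * (1 / J) := by ring
      rw [e5]
      nlinarith
    calc q ^ 2 ≤ (p * (1 + 1 / J)) ^ 2 := e1
      _ = (1 + 1 / J) ^ 2 * p ^ 2 := by ring
      _ ≤ (1 + 3 / J) * p ^ 2 := mul_le_mul_of_nonneg_right e2 (by positivity)
  have d1 : S ≤ B * e * ((1 + 6 * κ₁) * (q ^ 2 / p ^ 2)) := by
    have e1 : B * e * ((1 + 6 * κ₁) * (q ^ 2 / p ^ 2)) = 8 * (z * (1 + 6 * κ₁)) * (e * (q * x) ^ 2) := by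
      rw [hz]
      field_simp
    rw [e1, hS]
    have e2 : 8 * W ≤ 8 * (z * (1 + 6 * κ₁)) := by linarith
    exact mul_le_mul e2 hT hT0 (by positivity)
  have d2 : B * e * ((1 + 6 * κ₁) * (q ^ 2 / p ^ 2)) ≤ B * e * (1 + 1 / 2 * κ) := by
    apply mul_le_mul_of_nonneg_left _ (by positivity)
    have e3 : (1 + 6 * κ₁) * (q ^ 2 / p ^ 2) ≤ (1 + 6 * κ₁) * (1 + κ / 8) :=
      mul_le_mul_of_nonneg_left (by linarith) (by positivity)
    refine e3.trans ?_
    rw [hκ₁]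
    nlinarith
  have d3 : η * (x ^ 3 / L) ≤ B * (x / L) * (1 / 4) := by
    have e4 : η * (x ^ 3 / L) ≤ 2 * z * (x ^ 3 / L) := mul_le_mul_of_nonneg_right hη (by positivity)
    refine e4.trans ?_
    have e5 : 2 * z * (x ^ 3 / L) = B * (x / L) * (1 / 4) * (1 / p ^ 2) := by
      rw [hz]
      field_simp
      ring
    rw [e5]
    have e6 : 1 / p ^ 2 ≤ 1 := by
      rw [div_le_one (by positivity)]; exact hp2
    calc B * (x / L) * (1 / 4) * (1 / p ^ 2) ≤ B * (x / L) * (1 / 4) * 1 :=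
          mul_le_mul_of_nonneg_left e6 (by positivity)
      _ = _ := mul_one _
  have d4 := (abs_le.1 h1).2
  have d5 : B * (e * κ * (1 / 2)) ≤ B * (x / L * (1 / 4)) := by
    have e7 : B * (e * κ * (1 / 2)) = e * ((1 + κ) * B) - B * e * (1 + 1 / 2 * κ) := by ring
    have e8 : B * (x / L * (1 / 4)) = B * (x / L) * (1 / 4) := by ring
    rw [e7, e8]
    linarith
  have d6 : e * κ * (1 / 2) ≤ x / L * (1 / 4) := le_of_mul_le_mul_left d5 hB
  have d7 : 0 ≤ x / L := by positivity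
  linarith

private theorem UPC_main (hBMP : BMP_stmt) (hINC : INC_stmt) (hSZC : SZC_stmt) (κ : ℝ) (A : ℕ) (hκ : 0 < κ)
    (hκ1 : κ ≤ 1) : ∃ x₀ : ℕ, ∀ x : ℕ, x₀ ≤ x → ∀ B : ℕ,
    (x : ℝ) ^ (677 / 1000 : ℝ) ≤ B → B ≤ x ^ 2 →
    (#((Ioc x (2 * x)).filter fun m => (1 + κ) * B ≤ Wm B m) : ℝ) ≤ x / Real.log x ^ A := by
  obtain ⟨J, hJ⟩ := exists_nat_gt (24 / κ)
  have hJ0' : (0 : ℝ) < J := lt_trans (by positivity) hJ
  have hJ0 : 0 < J := by exact_mod_cast hJ0'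
  have hJ1 : (1 : ℝ) ≤ J := by exact_mod_cast hJ0
  have hJκ : 3 / (J : ℝ) ≤ κ / 8 := by
    rw [div_lt_iff₀ hκ] at hJ
    rw [div_le_iff₀ hJ0']
    nlinarith
  set κ₁ : ℝ := κ / 32 with hκ₁
  have hk0 : 0 < κ₁ := by positivity
  have hk1 : κ₁ ≤ 1 / 32 := by rw [hκ₁]; linarith
  obtain ⟨g, hg, hg01, hgs, hg1⟩ := hBMP 1 4 (1 / 20) (by norm_num) (by norm_num)
  obtain ⟨w, hw, hw01, hws, hw1⟩ := hBMP (-1 - κ₁) κ₁ κ₁ hk0 (by linarith)
  obtain ⟨x1, hx1⟩ := hINC g w hg hw (fun u hu => ⟨(hgs u hu).1.le, (hgs u hu).2.le⟩) (A + 1)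
  have hSZ := hSZC g w hg hw (fun u hu => by
    obtain ⟨h1, h2⟩ := hws u hu
    constructor <;> linarith) (fun u h1 h2 => hg1 u (by linarith) (by linarith))
  obtain ⟨x2, hx2⟩ : ∃ x2 : ℕ, ∀ x : ℕ, x2 ≤ x → (J / κ : ℝ) + 1 ≤ Real.log x := by
    have h1 : Filter.Tendsto (fun x : ℕ => Real.log x) Filter.atTop Filter.atTop :=
      Real.tendsto_log_atTop.comp tendsto_natCast_atTop_atTop
    obtain ⟨N, hN⟩ := Filter.eventually_atTop.1 (h1.eventually_ge_atTop ((J / κ : ℝ) + 1))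
    exact ⟨N, hN⟩
  refine ⟨x1 + x2 + 1, fun x hx B hB1 hB2 => ?_⟩
  have hxpos : 0 < x := by omega
  have hx0 : (0 : ℝ) < x := by exact_mod_cast hxpos
  have hBpos' : (0 : ℝ) < B := lt_of_lt_of_le (by positivity) hB1
  have hBpos : 0 < B := by exact_mod_cast hBpos'
  have hB2' : (B : ℝ) ≤ (x : ℝ) ^ 2 := by exact_mod_cast hB2
  have hL := hx2 x (by omega)
  set L : ℝ := Real.log x with hLd
  have hLJ : (J / κ : ℝ) ≤ L := by linarith
  have hL0 : 0 < L := by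
    have : 0 ≤ (J / κ : ℝ) := by positivity
    linarith
  -- the blocks
  let E : ℕ → Finset ℕ := fun j => (Ioc x (2 * x)).filter fun m : ℕ =>
    ((J * x + j * x < J * m ∧ J * m ≤ J * x + (j + 1) * x) ∧ (1 + κ) * B ≤ Wm B m)
  have hcov : ((Ioc x (2 * x)).filter fun m => (1 + κ) * B ≤ Wm B m) ⊆ (range J).biUnion E := by
    intro m hm
    rw [mem_filter, mem_Ioc] at hm
    obtain ⟨⟨hm1, hm2⟩, hm3⟩ := hm
    obtain ⟨j, hj⟩ : ∃ j, j = (J * (m - x) - 1) / x := ⟨_, rfl⟩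
    have hJm : 1 ≤ J * (m - x) := Nat.mul_pos (by omega) (by omega)
    have hJm2 : J * (m - x) ≤ J * x := Nat.mul_le_mul_left _ (by omega)
    have hjJ : j < J := by
      rw [hj, Nat.div_lt_iff_lt_mul (by omega)]
      omega
    have e1 : j * x ≤ J * (m - x) - 1 := by
      rw [hj]
      exact Nat.div_mul_le_self _ _
    have e2 : J * (m - x) - 1 < (j + 1) * x := by
      have := Nat.lt_mul_div_succ (J * (m - x) - 1) (show 0 < x by omega)
      rw [← hj] at this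
      calc J * (m - x) - 1 < x * (j + 1) := this
        _ = (j + 1) * x := by ring
    have e3 : J * m = J * (m - x) + J * x := by
      rw [← Nat.mul_add]
      congr 1
      omega
    refine mem_biUnion.2 ⟨j, mem_range.2 hjJ, ?_⟩
    refine mem_filter.2 ⟨mem_Ioc.2 ⟨hm1, hm2⟩, ⟨?_, ?_⟩, hm3⟩
    · omega
    · omega
  -- one block
  have hblock : ∀ j ∈ range J, ((E j).card : ℝ) * κ ≤ x / L ^ (A + 1) := by
    intro j hj
    have hj' := mem_range.1 hj
    set p : ℝ := 1 + (j : ℝ) / J with hp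
    set q : ℝ := 1 + ((j : ℝ) + 1) / J with hqd
    have h3 : 1 ≤ p := by
      have : 0 ≤ (j : ℝ) / J := by positivity
      linarith
    have h4 : q ≤ 2 := by
      have : ((j : ℝ) + 1) / J ≤ 1 := by
        rw [div_le_one hJ0']
        exact_mod_cast hj'
      linarith
    have hpq : q = p + 1 / J := by
      rw [hp, hqd]; ring
    have hJi : 0 < 1 / (J : ℝ) := by positivity
    have hq1 : 1 ≤ q := by linarith
    have hp0 : 0 < p := by linarith
    have hq0 : 0 < q := by linarith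
    have hp2 : (1 : ℝ) ≤ p ^ 2 := by nlinarith
    have hp4 : p ^ 2 ≤ 4 := by nlinarith
    set z : ℝ := B / (8 * (x : ℝ) ^ 2 * p ^ 2) with hz
    set η : ℝ := -Real.log (1 - z) with hη
    have hz0 : 0 < z := by positivity
    have hz8 : z ≤ 1 / 8 := by
      rw [hz, div_le_div_iff₀ (by positivity) (by norm_num)]
      nlinarith [sq_nonneg (x : ℝ)]
    have hz1 : 0 < 1 - z := by linarith
    have hηz : z ≤ η := (UPC_eta hz0 hz8).1
    have hηz2 : η ≤ 2 * z := (UPC_eta hz0 hz8).2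
    have hη0 : 0 < η := lt_of_lt_of_le hz0 hηz
    have hηlow : (x : ℝ) ^ (-(1323 / 1000 : ℝ)) / 32 ≤ η := by
      refine le_trans ?_ hηz
      rw [hz, div_le_div_iff₀ (by norm_num) (by positivity)]
      have h7 : (x : ℝ) ^ (677 / 1000 : ℝ) = (x : ℝ) ^ (-(1323 / 1000 : ℝ)) * (x : ℝ) ^ 2 := by
        rw [← Real.rpow_natCast x 2, ← Real.rpow_add hx0]
        congr 1
        push_cast
        norm_num
      have h8 : (x : ℝ) ^ (-(1323 / 1000 : ℝ)) * (8 * (x : ℝ) ^ 2 * p ^ 2) =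
          8 * ((x : ℝ) ^ (677 / 1000 : ℝ)) * p ^ 2 := by
        rw [h7]; ring
      rw [h8]
      have h9 : 8 * ((x : ℝ) ^ (677 / 1000 : ℝ)) * p ^ 2 ≤ 8 * ((x : ℝ) ^ (677 / 1000 : ℝ)) * 4 :=
        mul_le_mul_of_nonneg_left hp4 (by positivity)
      linarith
    let c : ℕ → ℝ := fun m => if m ∈ E j then 1 else 0
    have hc1 : ∀ m, |c m| ≤ 1 := by
      intro m
      by_cases hm : m ∈ E j
      · simp [c, hm]
      · simp [c, hm]
    have a1 := hx1 x (by omega) η hηlow (by linarith) c hc1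
    have a2 := hSZ c x η hxpos hη0 (by linarith)
    have a5 : η * ∫ v : ℝ, w v * Real.exp (η * v) ≤ z * (1 + 6 * κ₁) :=
      UPC_w hw hk0 (by linarith) hz0 hz8 rfl hηz hηz2 (fun u => (hw01 u).2) hws
    have hEsub : E j ⊆ Ioc x (2 * x) := filter_subset _ _
    have hEm : ∀ m ∈ E j, (m : ℝ) ≤ q * x := by
      intro m hm
      obtain ⟨b1, ⟨b2, b3⟩, b4⟩ := mem_filter.1 hm
      have b3' : (J : ℝ) * m ≤ J * x + ((j : ℝ) + 1) * x := by exact_mod_cast b3
      have e1 : q * x = (J * x + ((j : ℝ) + 1) * x) / J := by rw [hqd]; field_simp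
      rw [e1, le_div_iff₀ hJ0']
      linarith
    have hsumc : ∀ f : ℕ → ℝ, ∑ m ∈ Ioc x (2 * x), c m * f m = ∑ m ∈ E j, f m := by
      intro f
      have e1 : ∀ m ∈ Ioc x (2 * x), c m * f m = if m ∈ E j then f m else 0 := by
        intro m _
        by_cases hm : m ∈ E j
        · simp [c, hm]
        · simp [c, hm]
      rw [Finset.sum_congr rfl e1, Finset.sum_ite_mem, Finset.inter_eq_right.2 hEsub]
    have hT : ∑ m ∈ Ioc x (2 * x), c m * (m : ℝ) ^ 2 ≤ ((E j).card : ℝ) * (q * x) ^ 2 := by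
      rw [hsumc (fun m => (m : ℝ) ^ 2), ← nsmul_eq_mul]
      exact Finset.sum_le_card_nsmul _ _ _ fun m hm => pow_le_pow_left₀ (by positivity) (hEm m hm) 2
    have hT0 : 0 ≤ ∑ m ∈ Ioc x (2 * x), c m * (m : ℝ) ^ 2 := by
      rw [hsumc (fun m => (m : ℝ) ^ 2)]
      exact Finset.sum_nonneg fun m _ => by positivity
    have hSp : ((E j).card : ℝ) * ((1 + κ) * B) ≤ Spc c g w x η := by
      unfold Spc
      rw [hsumc (fun m => ∑' n : ℕ, vonMangoldt n * g (Real.log ((n : ℝ) / (x : ℝ) ^ 2)) *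
        w ((Real.log n - Real.log (8 * (m : ℝ) ^ 2)) / η)), ← nsmul_eq_mul]
      refine Finset.card_nsmul_le_sum _ _ _ fun m hm => ?_
      obtain ⟨b1, ⟨b2, b3⟩, b4⟩ := mem_filter.1 hm
      rw [mem_Ioc] at b1
      refine b4.trans ?_
      unfold Wm
      refine UPC_inner hg (fun u => (hg01 u).1) (fun u => (hw01 u).1) x hxpos η
        (Real.log (8 * (m : ℝ) ^ 2)) _ fun n hn => ?_
      obtain ⟨hn1, hn2⟩ := mem_Ico.1 hn
      obtain ⟨-, ⟨a3, a4⟩, ⟨a5, a6⟩⟩ :=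
        UPC_one hxpos hB2 hBpos hJ0 b1.1 b1.2 (j := j) (by omega) (by omega) hn1 hn2 hz hz8
      refine ⟨hg1 _ (by linarith) (by linarith), hw1 _ ?_ ?_⟩
      · rw [hη]; linarith
      · rw [hη]; linarith
    exact UPC_arith hx0 hBpos' (by positivity) (by positivity) hκ hκ1 hκ₁ hJ1 hJκ h3 hpq hz a5 hηz2 a2 hT0 hT a1 hSp
  have hcard : (#((Ioc x (2 * x)).filter fun m => (1 + κ) * B ≤ Wm B m) : ℝ) ≤ ∑ j ∈ range J, ((E j).card : ℝ) := by
    have h1 : #((Ioc x (2 * x)).filter fun m => (1 + κ) * B ≤ Wm B m) ≤ ∑ j ∈ range J, (E j).card :=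
      (Finset.card_le_card hcov).trans Finset.card_biUnion_le
    exact_mod_cast h1
  have hsum : (∑ j ∈ range J, ((E j).card : ℝ)) * κ ≤ J * (x / L ^ (A + 1)) := by
    rw [Finset.sum_mul]
    refine (Finset.sum_le_card_nsmul _ _ _ hblock).trans (le_of_eq ?_)
    rw [card_range, nsmul_eq_mul]
  refine hcard.trans ?_
  have h5 : (∑ j ∈ range J, ((E j).card : ℝ)) ≤ J * (x / L ^ (A + 1)) / κ := by
    rw [le_div_iff₀ hκ]
    exact hsum
  refine h5.trans ?_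
  have h6 : J * (x / L ^ (A + 1)) / κ = (J / κ) / L * (x / L ^ A) := by
    rw [pow_succ]
    field_simp
  rw [h6]
  have h7 : (J / κ) / L ≤ 1 := by
    rw [div_le_one hL0]
    exact hLJ
  calc (J / κ) / L * (x / L ^ A) ≤ 1 * (x / L ^ A) := mul_le_mul_of_nonneg_right h7 (by positivity)
    _ = _ := one_mul _

theorem UPC (hBMP : BMP_stmt) (hINC : INC_stmt) (hSZC : SZC_stmt) : UPC_stmt := by
  intro κ A hκ
  obtain ⟨x₀, h⟩ := UPC_main hBMP hINC hSZC (min κ 1) A (lt_min hκ one_pos) (min_le_right _ _)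
  refine ⟨x₀, fun x hx B hB1 hB2 => ?_⟩
  refine le_trans ?_ (h x hx B hB1 hB2)
  have h1 : ((Ioc x (2 * x)).filter fun m => (1 + κ) * B ≤ Wm B m) ⊆
      ((Ioc x (2 * x)).filter fun m => (1 + min κ 1) * B ≤ Wm B m) := by
    intro m hm
    rw [mem_filter] at hm ⊢
    refine ⟨hm.1, le_trans ?_ hm.2⟩
    apply mul_le_mul_of_nonneg_right _ (Nat.cast_nonneg B)
    have := min_le_left κ 1
    linarith
  exact_mod_cast Finset.card_le_card h1

end Pool.Agent.SCV
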